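import Pool.Agent.Lib.Helper34.PH14

set_option autoImplicit false

namespace Pool.Agent.Results.MP_063fec_an.AbelianSymmetry

/-- The polynomially convex hull of a set `K` in `ℂⁿ` (for compact `K` this is the usual hull; it is empty for `K = ∅`). -/
def hull {n : ℕ} (K : Set (Fin n → ℂ)) : Set (Fin n → ℂ) :=
  {z | ∀ P : MvPolynomial (Fin n) ℂ, ∀ c : ℝ,
    (∀ w ∈ K, ‖MvPolynomial.eval w P‖ ≤ c) → ‖MvPolynomial.eval z P‖ ≤ c}

/-- `S` contains an analytic disc: there is a nonconstant holomorphic map of the open unit disc into `S`. -/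
def HasDisc {n : ℕ} (S : Set (Fin n → ℂ)) : Prop :=
  ∃ f : ℂ → (Fin n → ℂ), DifferentiableOn ℂ f (Metric.ball (0 : ℂ) 1) ∧
    (∃ a ∈ Metric.ball (0 : ℂ) 1, ∃ b ∈ Metric.ball (0 : ℂ) 1, f a ≠ f b) ∧
    ∀ ζ ∈ Metric.ball (0 : ℂ) 1, f ζ ∈ S

/-- `K` is invariant under the group `G` of diagonal unitary matrices. -/
def Invariant {n : ℕ} (G : Subgroup (Fin n → Circle)) (K : Set (Fin n → ℂ)) : Prop :=
  ∀ u ∈ G, ∀ z ∈ K, (fun i => (u i : ℂ) * z i) ∈ K

/-- The monomial `∏ i, z_i ^ a_i` is invariant under `G`. -/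
def InvariantMonomial {n : ℕ} (G : Subgroup (Fin n → Circle)) (a : Fin n → ℕ) : Prop :=
  ∀ u ∈ G, ∏ i, u i ^ a i = 1

/-- `G` has at most one algebraically independent invariant polynomial: the exponents of any two `G`-invariant monomials
are proportional. -/
def OneInvariant {n : ℕ} (G : Subgroup (Fin n → Circle)) : Prop :=
  ∀ a b : Fin n → ℕ, InvariantMonomial G a → InvariantMonomial G b →
    ∃ p q : ℕ, (p ≠ 0 ∨ q ≠ 0) ∧ ∀ i, p * a i = q * b i

/-- Let `G` be a group of diagonal unitary matrices with at most one algebraically independent invariant polynomial,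
and let `K` be a compact subset of `ℂⁿ`, invariant under `G`, whose polynomially convex hull has a point outside `K`.
Then the hull of `K` contains an analytic disc. -/
theorem result {n : ℕ} (G : Subgroup (Fin n → Circle)) (hG : OneInvariant G) (K : Set (Fin n → ℂ)) (hK : IsCompact K)
    (hinv : Invariant G K) (hne : ∃ x ∈ hull K, x ∉ K) : HasDisc (hull K) := by
  obtain ⟨x, hx, hxK⟩ := hne
  exact Pool.Agent.Lib.Helper34.PH.ph14_main hK G hG hinv x hx hxK

end Pool.Agent.Results.MP_063fec_an.AbelianSymmetry
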