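import Pool.Agent.Lib.H14P.Q6

set_option autoImplicit false

namespace Pool.Agent.Results.MP_063fec_an.ConjugationSymmetry

/-- The polynomially convex hull of a set `K` in `ℂ^ι` (for compact `K` this is the usual hull; it is empty for `K = ∅`). -/
def hull {ι : Type} (K : Set (ι → ℂ)) : Set (ι → ℂ) :=
  {z | ∀ P : MvPolynomial ι ℂ, ∀ c : ℝ,
    (∀ w ∈ K, ‖MvPolynomial.eval w P‖ ≤ c) → ‖MvPolynomial.eval z P‖ ≤ c}

/-- `S` contains an analytic disc: there is a nonconstant holomorphic map of the open unit disc into `S`. -/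
def HasDisc {ι : Type} [Fintype ι] (S : Set (ι → ℂ)) : Prop :=
  ∃ f : ℂ → (ι → ℂ), DifferentiableOn ℂ f (Metric.ball (0 : ℂ) 1) ∧
    (∃ a ∈ Metric.ball (0 : ℂ) 1, ∃ b ∈ Metric.ball (0 : ℂ) 1, f a ≠ f b) ∧
    ∀ ζ ∈ Metric.ball (0 : ℂ) 1, f ζ ∈ S

/-- The assertion of Q1 for the set `S`: if the hull of `S` has a point outside `S`, it contains an analytic disc. -/
def Q1Holds {ι : Type} [Fintype ι] (S : Set (ι → ℂ)) : Prop :=
  (∃ x ∈ hull S, x ∉ S) → HasDisc (hull S)

/-- `M` is a real-analytic submanifold of `ℂ^ι`, as in the frozen statement (its components may have different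
dimensions). -/
def IsAnalyticSubmanifold {ι : Type} [Fintype ι] (M : Set (ι → ℂ)) : Prop :=
  ∀ p ∈ M, ∃ (m : ℕ) (U : Set (ι → ℂ)) (g : (ι → ℂ) → (Fin m → ℝ)),
    IsOpen U ∧ p ∈ U ∧ AnalyticOnNhd ℝ g U ∧ (∀ x ∈ U, Function.Surjective (fderiv ℝ g x)) ∧
      M ∩ U = {x | x ∈ U ∧ g x = 0}

/-- The points `z` of `ℂ^(N·N)` are complex `N × N` matrices: `mat z` is the matrix with the entries `z (i, j)`. -/
def mat {N : ℕ} (z : Fin N × Fin N → ℂ) : Matrix (Fin N) (Fin N) ℂ := Matrix.of fun i j => z (i, j)

/-- The point of `ℂ^(N·N)` given by a matrix. -/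
def vec {N : ℕ} (A : Matrix (Fin N) (Fin N) ℂ) : Fin N × Fin N → ℂ := fun p => A p.1 p.2

/-- The map `β` divides the indices into blocks; `A` is block diagonal: `A i j = 0` if `i` and `j` are in different
blocks. -/
def IsBlock {N : ℕ} (β : Fin N → ℕ) (A : Matrix (Fin N) (Fin N) ℂ) : Prop := ∀ i j, β i ≠ β j → A i j = 0

/-- `K` is invariant under conjugation by all block diagonal unitary matrices. -/
def ConjugationInvariant {N : ℕ} (β : Fin N → ℕ) (K : Set (Fin N × Fin N → ℂ)) : Prop :=
  ∀ U ∈ Matrix.unitaryGroup (Fin N) ℂ, IsBlock β U → ∀ z ∈ K, vec (U * mat z * star U) ∈ K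

/-- `K` is invariant under multiplication by block diagonal unitary matrices of determinant one from the left and from
the right, independently of each other. -/
def TwoSidedInvariant {N : ℕ} (β : Fin N → ℕ) (K : Set (Fin N × Fin N → ℂ)) : Prop :=
  ∀ U ∈ Matrix.specialUnitaryGroup (Fin N) ℂ, IsBlock β U →
    ∀ V ∈ Matrix.specialUnitaryGroup (Fin N) ℂ, IsBlock β V → ∀ z ∈ K, vec (U * mat z * V) ∈ K

/-- The diagonal matrix with the entries `y i`. -/
def diag {N : ℕ} (y : Fin N → ℂ) : Fin N × Fin N → ℂ := fun p => if p.1 = p.2 then y p.1 else 0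

/-- The set of all `y` in `ℂ^N` for which the diagonal matrix with the entries `y i` is in `K`. -/
def diagonals {N : ℕ} (K : Set (Fin N × Fin N → ℂ)) : Set (Fin N → ℂ) := {y | diag y ∈ K}

/-- The monomial `∏ i, y_i ^ a_i` is invariant under the group `G` of diagonal unitary matrices. -/
def InvariantMonomial {N : ℕ} (G : Subgroup (Fin N → Circle)) (a : Fin N → ℕ) : Prop :=
  ∀ u ∈ G, ∏ i, u i ^ a i = 1

/-- `G` has at most one algebraically independent invariant polynomial: the exponents of any two `G`-invariant monomials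
are proportional. -/
def OneInvariant {N : ℕ} (G : Subgroup (Fin N → Circle)) : Prop :=
  ∀ a b : Fin N → ℕ, InvariantMonomial G a → InvariantMonomial G b →
    ∃ p q : ℕ, (p ≠ 0 ∨ q ≠ 0) ∧ ∀ i, p * a i = q * b i

/-- Let `K` be a compact set of block diagonal complex `N × N` matrices (for a fixed division of the indices into blocks;
one block: all matrices), invariant under conjugation by block diagonal unitary matrices, and let `S ⊆ ℂ^N` be the set
of the diagonals of the diagonal matrices in `K`. Then `S` is compact, it is a real-analytic submanifold if `K` is one,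
and the assertion of Q1 for `S` implies that for `K`. In particular it holds for `K` if `K` is invariant under
`z ↦ U z V` for all block diagonal unitary `U`, `V` of determinant one, or if `S` is invariant under a group of diagonal
unitary matrices with at most one independent invariant. -/
theorem result {N : ℕ} (β : Fin N → ℕ) (K : Set (Fin N × Fin N → ℂ)) (hK : IsCompact K)
    (hblock : ∀ z ∈ K, IsBlock β (mat z)) (hinv : ConjugationInvariant β K) :
    IsCompact (diagonals K) ∧
    (IsAnalyticSubmanifold K → IsAnalyticSubmanifold (diagonals K)) ∧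
    (Q1Holds (diagonals K) → Q1Holds K) ∧
    ((TwoSidedInvariant β K ∨ ∃ G : Subgroup (Fin N → Circle), OneInvariant G ∧
      ∀ u ∈ G, ∀ y ∈ diagonals K, (fun i => (u i : ℂ) * y i) ∈ diagonals K) → Q1Holds K) := by
  refine ⟨Pool.Agent.Lib.H14P.dslice_isCompact hK,
    fun h => Pool.Agent.Lib.H14P.q6_main (β := β) hinv h,
    fun h => Pool.Agent.Lib.H14P.q4_red (β := β) hblock hinv h, ?_⟩
  rintro (h | ⟨G, hG, hGK⟩)
  · exact Pool.Agent.Lib.H14P.q4_two_sided (β := β) hK hblock h
  · exact Pool.Agent.Lib.H14P.q4_abelian (β := β) hK hblock hinv G hG hGK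

end Pool.Agent.Results.MP_063fec_an.ConjugationSymmetry
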