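import Pool.Agent.Lib.H14P.P8

set_option autoImplicit false

namespace Pool.Agent.Results.MP_063fec_an.OrthogonalSymmetry

/-- The polynomially convex hull of a set `K` in `ℂ^ι` (for compact `K` this is the usual hull; it is empty for `K = ∅`). -/
def hull {ι : Type} (K : Set (ι → ℂ)) : Set (ι → ℂ) :=
  {z | ∀ P : MvPolynomial ι ℂ, ∀ c : ℝ,
    (∀ w ∈ K, ‖MvPolynomial.eval w P‖ ≤ c) → ‖MvPolynomial.eval z P‖ ≤ c}

/-- `S` contains an analytic disc: there is a nonconstant holomorphic map of the open unit disc into `S`. -/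
def HasDisc {ι : Type} [Fintype ι] (S : Set (ι → ℂ)) : Prop :=
  ∃ f : ℂ → (ι → ℂ), DifferentiableOn ℂ f (Metric.ball (0 : ℂ) 1) ∧
    (∃ a ∈ Metric.ball (0 : ℂ) 1, ∃ b ∈ Metric.ball (0 : ℂ) 1, f a ≠ f b) ∧
    ∀ ζ ∈ Metric.ball (0 : ℂ) 1, f ζ ∈ S

/-- The assertion of Q1 for the set `S`: if the hull of `S` has a point outside `S`, it contains an analytic disc. -/
def Q1Holds {ι : Type} [Fintype ι] (S : Set (ι → ℂ)) : Prop :=
  (∃ x ∈ hull S, x ∉ S) → HasDisc (hull S)

/-- `M` is a real-analytic submanifold of `ℂ^ι`, as in the frozen statement (its components may have different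
dimensions). -/
def IsAnalyticSubmanifold {ι : Type} [Fintype ι] (M : Set (ι → ℂ)) : Prop :=
  ∀ p ∈ M, ∃ (m : ℕ) (U : Set (ι → ℂ)) (g : (ι → ℂ) → (Fin m → ℝ)),
    IsOpen U ∧ p ∈ U ∧ AnalyticOnNhd ℝ g U ∧ (∀ x ∈ U, Function.Surjective (fderiv ℝ g x)) ∧
      M ∩ U = {x | x ∈ U ∧ g x = 0}

/-- The space `ℂ^(n_1+1) × ... × ℂ^(n_k+1)`: its coordinates are the pairs `⟨i, j⟩`, where `i` is the number of the block
and `j` the number of the coordinate in the block. A family `A` of real square matrices acts on it block by block. -/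
noncomputable def act {k : ℕ} {n : Fin k → ℕ} (A : ∀ i, Matrix (Fin (n i + 1)) (Fin (n i + 1)) ℝ)
    (z : (Σ i : Fin k, Fin (n i + 1)) → ℂ) : (Σ i : Fin k, Fin (n i + 1)) → ℂ :=
  fun p => ∑ l, (A p.1 p.2 l : ℂ) * z ⟨p.1, l⟩

/-- `K` is invariant under all real orthogonal changes of coordinates within the blocks: under `O(2)` for blocks of size
two and under `SO(m)` for blocks of size `m` at least three. Nothing is asked for blocks of size one. -/
def Invariant {k : ℕ} {n : Fin k → ℕ} (K : Set ((Σ i : Fin k, Fin (n i + 1)) → ℂ)) : Prop :=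
  ∀ A : ∀ i, Matrix (Fin (n i + 1)) (Fin (n i + 1)) ℝ,
    (∀ i, A i ∈ Matrix.orthogonalGroup (Fin (n i + 1)) ℝ) → (∀ i, n i = 0 → A i = 1) →
      (∀ i, 2 ≤ n i → (A i).det = 1) → ∀ z ∈ K, act A z ∈ K

/-- The embedding of `ℂ^k` by the first coordinates of the blocks (the other coordinates are zero). -/
def emb {k : ℕ} (n : Fin k → ℕ) (y : Fin k → ℂ) : (Σ i : Fin k, Fin (n i + 1)) → ℂ :=
  fun p => if p.2 = 0 then y p.1 else 0

/-- The slice of `K`: the set of all `y` in `ℂ^k` whose image under the embedding is in `K`. -/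
def slice {k : ℕ} {n : Fin k → ℕ} (K : Set ((Σ i : Fin k, Fin (n i + 1)) → ℂ)) : Set (Fin k → ℂ) :=
  {y | emb n y ∈ K}

/-- The monomial `∏ i, y_i ^ a_i` is invariant under the group `G` of diagonal unitary matrices. -/
def InvariantMonomial {k : ℕ} (G : Subgroup (Fin k → Circle)) (a : Fin k → ℕ) : Prop :=
  ∀ u ∈ G, ∏ i, u i ^ a i = 1

/-- `G` has at most one algebraically independent invariant polynomial: the exponents of any two `G`-invariant monomials
are proportional. -/
def OneInvariant {k : ℕ} (G : Subgroup (Fin k → Circle)) : Prop :=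
  ∀ a b : Fin k → ℕ, InvariantMonomial G a → InvariantMonomial G b →
    ∃ p q : ℕ, (p ≠ 0 ∨ q ≠ 0) ∧ ∀ i, p * a i = q * b i

/-- Let `K` be a compact subset of `ℂ^(n_1+1) × ... × ℂ^(n_k+1)`, invariant under real orthogonal changes of coordinates
within the blocks. Then the slice of `K` in `ℂ^k` is compact, it is a real-analytic submanifold if `K` is one, and the
assertion of Q1 for the slice implies that for `K`. In particular it holds for `K` if there is only one block, or if the
slice is invariant under a group of diagonal unitary matrices with at most one independent invariant. -/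
theorem result {k : ℕ} {n : Fin k → ℕ} (K : Set ((Σ i : Fin k, Fin (n i + 1)) → ℂ)) (hK : IsCompact K)
    (hinv : Invariant K) :
    IsCompact (slice K) ∧
    (IsAnalyticSubmanifold K → IsAnalyticSubmanifold (slice K)) ∧
    (Q1Holds (slice K) → Q1Holds K) ∧
    ((k = 1 ∨ ∃ G : Subgroup (Fin k → Circle), OneInvariant G ∧
      ∀ u ∈ G, ∀ y ∈ slice K, (fun i => (u i : ℂ) * y i) ∈ slice K) → Q1Holds K) := by
  refine ⟨Pool.Agent.Lib.H14P.slice_isCompact hK, fun h => Pool.Agent.Lib.H14P.p8_main hinv h,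
    fun h => Pool.Agent.Lib.H14P.p6_red hinv h, ?_⟩
  rintro (hk | ⟨G, hG, hGK⟩)
  · exact Pool.Agent.Lib.H14P.p6_one hK hinv hk
  · exact Pool.Agent.Lib.H14P.p6_abelian hK hinv G hG hGK

end Pool.Agent.Results.MP_063fec_an.OrthogonalSymmetry
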